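import Pool.Agent.WIR.StmtsB

set_option autoImplicit false

/-! Row FPG of squad WIR: Pascal. -/

namespace Pool.Agent.WIR.H26

open scoped BigOperators

lemma pascal (m : ℕ) (a : ℕ → ℝ) :
    ∑ r ∈ Finset.range (m + 2), ((m + 1).choose r : ℝ) * a r =
      ∑ r ∈ Finset.range (m + 1), (m.choose r : ℝ) * (a (r + 1) + a r) := by
  have h1 : ∑ r ∈ Finset.range (m + 2), ((m + 1).choose r : ℝ) * a r =
      ∑ r ∈ Finset.range (m + 1), ((m + 1).choose (r + 1) : ℝ) * a (r + 1) + a 0 := by
    rw [Finset.sum_range_succ']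
    simp
  have h2 : ∑ r ∈ Finset.range (m + 2), (m.choose r : ℝ) * a r =
      ∑ r ∈ Finset.range (m + 1), (m.choose (r + 1) : ℝ) * a (r + 1) + a 0 := by
    rw [Finset.sum_range_succ']
    simp
  have h3 : ∑ r ∈ Finset.range (m + 2), (m.choose r : ℝ) * a r =
      ∑ r ∈ Finset.range (m + 1), (m.choose r : ℝ) * a r := by
    rw [Finset.sum_range_succ _ (m + 1), Nat.choose_succ_self]
    simp
  have h4 : ∑ r ∈ Finset.range (m + 1), ((m + 1).choose (r + 1) : ℝ) * a (r + 1) =
      ∑ r ∈ Finset.range (m + 1), (m.choose r : ℝ) * a (r + 1) +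
        ∑ r ∈ Finset.range (m + 1), (m.choose (r + 1) : ℝ) * a (r + 1) := by
    rw [← Finset.sum_add_distrib]
    refine Finset.sum_congr rfl fun r _ => ?_
    rw [Nat.choose_succ_succ]
    push_cast
    ring
  have h5 : ∑ r ∈ Finset.range (m + 1), (m.choose r : ℝ) * (a (r + 1) + a r) =
      ∑ r ∈ Finset.range (m + 1), (m.choose r : ℝ) * a (r + 1) +
        ∑ r ∈ Finset.range (m + 1), (m.choose r : ℝ) * a r := by
    rw [← Finset.sum_add_distrib]
    refine Finset.sum_congr rfl fun r _ => ?_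
    ring
  linarith

theorem fpg : FpgStmt := by
  intro s G l hG
  have key : ∀ m, m ≤ s →
      G 0 l ≤ ∑ r ∈ Finset.range (m + 1), (m.choose r : ℝ) * (1 / 2 : ℝ) ^ m * G r (l + m) := by
    intro m
    induction m with
    | zero => intro _; simp
    | succ m ih =>
      intro hm
      refine (ih (by omega)).trans ?_
      have h1 : ∑ r ∈ Finset.range (m + 1 + 1), ((m + 1).choose r : ℝ) * (1 / 2 : ℝ) ^ (m + 1) *
          G r (l + (m + 1)) = ∑ r ∈ Finset.range (m + 2), ((m + 1).choose r : ℝ) *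
            ((1 / 2 : ℝ) ^ (m + 1) * G r (l + m + 1)) := by
        refine Finset.sum_congr rfl fun r _ => ?_
        rw [mul_assoc, add_assoc]
      rw [h1, pascal]
      refine Finset.sum_le_sum fun r hr => ?_
      have hr' : r < s := by
        have := Finset.mem_range.mp hr
        omega
      have h2 := hG r (l + m) hr'
      have h3 : (0 : ℝ) ≤ (m.choose r : ℝ) * (1 / 2 : ℝ) ^ m := by positivity
      calc (m.choose r : ℝ) * (1 / 2 : ℝ) ^ m * G r (l + m)
          ≤ (m.choose r : ℝ) * (1 / 2 : ℝ) ^ m * ((G (r + 1) (l + m + 1) + G r (l + m + 1)) / 2) :=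
            mul_le_mul_of_nonneg_left h2 h3
        _ = (m.choose r : ℝ) * ((1 / 2 : ℝ) ^ (m + 1) * G (r + 1) (l + m + 1) +
              (1 / 2 : ℝ) ^ (m + 1) * G r (l + m + 1)) := by
            rw [pow_succ]; ring
  exact key s le_rfl

end Pool.Agent.WIR.H26
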